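import Mathlib
import Pool.Agent.E8helper61.SI.Stm2

/-!
# Project SI2 (helper61): the numerical statement H2A
-/

set_option autoImplicit false

open Finset

namespace Pool.Agent.E8helper89.SI

open Pool.Agent.E8helper61.SI

theorem sg_nonneg (n r g L : ℕ) : 0 ≤ sg n r g L :=
  Finset.sum_nonneg fun _ _ => by positivity

/-- the bound of `sg` -/
theorem sg_le (hPW : PwStatement) (n r g L : ℕ) (θ : ℝ) (hθ : 0 ≤ θ)
    (hn : (n : ℝ) ≤ (2 : ℝ) ^ (((r : ℝ) - 1) / 2 - θ)) :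
    sg n r g L ≤ (2 : ℝ) ^ ((r : ℝ) + L - θ * g) := by
  have h1 : ∀ k ∈ Icc g r, (2 ^ L * (n : ℝ) ^ k) / 2 ^ (k * (r - k) + k.choose 2) ≤
      (2 : ℝ) ^ L * (2 : ℝ) ^ (-(θ * g)) := by
    intro k hk
    rw [mul_div_assoc]
    have h2 := hPW n r k θ (mem_Icc.1 hk).2 hn
    have h3 : (2 : ℝ) ^ (-(θ * k)) ≤ (2 : ℝ) ^ (-(θ * g)) := by
      apply Real.rpow_le_rpow_of_exponent_le one_le_two
      have h4 : (g : ℝ) ≤ k := by exact_mod_cast (mem_Icc.1 hk).1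
      have := mul_le_mul_of_nonneg_left h4 hθ
      linarith
    exact mul_le_mul_of_nonneg_left (h2.trans h3) (by positivity)
  have h5 : sg n r g L ≤ ((r : ℝ) + 1) * ((2 : ℝ) ^ L * (2 : ℝ) ^ (-(θ * g))) := by
    unfold sg
    refine (Finset.sum_le_sum h1).trans ?_
    rw [sum_const, Nat.card_Icc, nsmul_eq_mul]
    refine mul_le_mul_of_nonneg_right ?_ (by positivity)
    have : ((r + 1 - g : ℕ) : ℝ) ≤ ((r + 1 : ℕ) : ℝ) := by exact_mod_cast Nat.sub_le _ _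
    push_cast at this
    exact this
  have h6 : (r : ℝ) + 1 ≤ (2 : ℝ) ^ r := by
    have : r + 1 ≤ 2 ^ r := Nat.lt_two_pow_self
    exact_mod_cast this
  have h7 : (2 : ℝ) ^ ((r : ℝ) + L - θ * g) = (2 : ℝ) ^ r * ((2 : ℝ) ^ L * (2 : ℝ) ^ (-(θ * g))) := by
    rw [← Real.rpow_natCast, ← Real.rpow_natCast, ← Real.rpow_add two_pos,
      ← Real.rpow_add two_pos]
    congr 1
    ring
  rw [h7]
  exact h5.trans (mul_le_mul_of_nonneg_right h6 (by positivity))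

theorem h2a : H2AStatement := by
  intro hPW ε hε hε2
  obtain ⟨m, hm⟩ : ∃ m : ℕ, m = ⌈128 / ε ^ 2⌉₊ := ⟨_, rfl⟩
  refine ⟨⌈32 / ε⌉₊ + 2 * (m * (m + 2)) + 2, ?_⟩
  intro r n hr hn
  rw [← hm]
  have hm1 : 128 / ε ^ 2 ≤ (m : ℝ) := by
    rw [hm]
    exact Nat.le_ceil _
  have hr1 : 32 / ε ≤ (r : ℝ) :=
    (Nat.le_ceil _).trans (by exact_mod_cast (by omega : ⌈32 / ε⌉₊ ≤ r))
  have hr2 : (2 * (m * (m + 2)) + 2 : ℝ) ≤ r := by
    exact_mod_cast (by omega : 2 * (m * (m + 2)) + 2 ≤ r)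
  have hεr : 32 ≤ ε * r := by
    rw [div_le_iff₀ hε] at hr1
    linarith
  obtain ⟨g, hgd⟩ : ∃ g : ℕ, g = ⌊ε / 32 * r⌋₊ := ⟨_, rfl⟩
  rw [← hgd]
  have hg : ε * r / 64 ≤ (g : ℝ) := by
    have h1 := Nat.lt_floor_add_one (ε / 32 * r)
    have h2 : 1 ≤ ⌊ε / 32 * r⌋₊ := Nat.le_floor (by
      push_cast
      linarith)
    rw [← hgd] at h1 h2
    have h3 : (1 : ℝ) ≤ g := by exact_mod_cast h2
    linarith
  obtain ⟨θ, hθ⟩ : ∃ θ : ℝ, θ = ε * r - 1 / 2 := ⟨_, rfl⟩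
  have hθ1 : ε * r / 2 ≤ θ := by
    rw [hθ]
    linarith
  have hθ0 : 0 ≤ θ := by linarith
  have hr0 : (0 : ℝ) ≤ r := Nat.cast_nonneg r
  have hm0 : (0 : ℝ) ≤ m := Nat.cast_nonneg m
  have hsg := sg_le hPW n r g ((m + 1) * r) θ hθ0 (by
    refine hn.trans (le_of_eq ?_)
    congr 1
    rw [hθ]
    ring)
  have h1 : (sg n r g ((m + 1) * r)) ^ m ≤
      (2 : ℝ) ^ (((r : ℝ) + ((m + 1) * r : ℕ) - θ * g) * m) := by
    refine (pow_le_pow_left₀ (sg_nonneg _ _ _ _) hsg m).trans (le_of_eq ?_)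
    rw [← Real.rpow_natCast, ← Real.rpow_mul two_pos.le]
  have h2 : (n.choose r : ℝ) ≤ (2 : ℝ) ^ ((1 / 2 - ε) * r * r) := by
    have e1 : (n.choose r : ℝ) ≤ (n : ℝ) ^ r := by exact_mod_cast Nat.choose_le_pow n r
    refine e1.trans ((pow_le_pow_left₀ (Nat.cast_nonneg n) hn r).trans (le_of_eq ?_))
    rw [← Real.rpow_natCast, ← Real.rpow_mul two_pos.le]
  have h3 : (m : ℝ) * (θ * g) ≥ r ^ 2 := by
    have e1 : ε * r / 2 * (ε * r / 64) ≤ θ * g := by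
      apply mul_le_mul hθ1 hg (by positivity) hθ0
    have e2 : 128 / ε ^ 2 * (ε * r / 2 * (ε * r / 64)) ≤ (m : ℝ) * (θ * g) := by
      apply mul_le_mul hm1 e1 (by positivity) hm0
    have e3 : 128 / ε ^ 2 * (ε * r / 2 * (ε * r / 64)) = (r : ℝ) ^ 2 := by
      field_simp
      ring
    rw [e3] at e2
    exact e2
  have h4 : (1 / 2 - ε) * r * r + ((r : ℝ) + ((m + 1) * r : ℕ) - θ * g) * m ≤ -1 := by
    push_cast
    have e1 : 0 ≤ ε * r * r := by positivity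
    have e2 : (1 : ℝ) ≤ r := by nlinarith
    nlinarith
  calc (n.choose r : ℝ) * (sg n r g ((m + 1) * r)) ^ m
      ≤ (2 : ℝ) ^ ((1 / 2 - ε) * r * r) *
          (2 : ℝ) ^ (((r : ℝ) + ((m + 1) * r : ℕ) - θ * g) * m) :=
        mul_le_mul h2 h1 (pow_nonneg (sg_nonneg _ _ _ _) m) (by positivity)
    _ = (2 : ℝ) ^ ((1 / 2 - ε) * r * r + ((r : ℝ) + ((m + 1) * r : ℕ) - θ * g) * m) := by
        rw [← Real.rpow_add two_pos]
    _ ≤ (2 : ℝ) ^ (-1 : ℝ) := Real.rpow_le_rpow_of_exponent_le one_le_two h4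
    _ = 1 / 2 := by
        rw [Real.rpow_neg_one]
        norm_num

end Pool.Agent.E8helper89.SI
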