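import Mathlib
import Pool.Agent.E8helper61.SI.Stm3

/-!
# Project SI3, ZASM: the assembly of the deterministic inequality (helper89)
-/

set_option autoImplicit false

open Finset

namespace Pool.Agent.E8helper89.SI

open Pool.Agent.E8helper61.SI

theorem zasm : C1Statement → C2Statement → VtxStatement → DegStatement → SymStatement →
    Num3Statement → ZStatement := by
  intro hC1 hC2 hV hDeg hSym hN ε hε
  obtain ⟨t1, hC1⟩ := hC1
  obtain ⟨t2, hN⟩ := hN ε hε
  refine ⟨max (max t1 t2) 10, fun t ht n x hx => ?_⟩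
  have ht1 : t1 ≤ t := (le_max_left _ _).trans ((le_max_left _ _).trans ht)
  have ht2 : t2 ≤ t := (le_max_right _ _).trans ((le_max_left _ _).trans ht)
  have ht10 : 10 ≤ t := (le_max_right _ _).trans ht
  have htR : (10 : ℝ) ≤ (t : ℝ) := by exact_mod_cast ht10
  have hlog : 0 < Real.log 2 := Real.log_pos (by norm_num)
  have hsq : 2 ≤ √(t : ℝ) := by
    apply Real.le_sqrt_of_sq_le
    linarith
  have hlam0 : 0 < 1 / √(t : ℝ) := by positivity
  have hlam : 1 / √(t : ℝ) ≤ 1 / 2 := by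
    apply one_div_le_one_div_of_le (by norm_num) hsq
  set w : Finset (Fin n) → ℝ := fun e => wf (1 / √(t : ℝ)) (x e) with hw
  have hc2 : ∀ e, 0 < Mf (1 / √(t : ℝ)) (x e) ∧ 0 ≤ w e ∧ (uf (x e)) ^ 2 ≤ 16 * w e := fun e =>
    hC2 _ _ hlam0 hlam (hx e).1 (hx e).2
  have huf : ∀ e, 0 ≤ uf (x e) ∧ uf (x e) ≤ 1 := by
    intro e
    obtain ⟨h1, h2⟩ := hx e
    have hp : 0 < x e := by linarith
    have h3 : 1 / x e ≤ 1 := by rw [div_le_one hp]; exact h1
    have h4 : 1 / 2 ≤ 1 / x e := one_div_le_one_div_of_le hp h2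
    unfold uf
    constructor <;> linarith
  obtain ⟨g, hg, hgU⟩ := hV n t (fun e => uf (x e)) w (1 / √(√(t : ℝ))) (1 / (t : ℝ) ^ 3) ht10
    (by positivity) (by positivity) (by
      intro e _
      refine ⟨(huf e).1, (huf e).2, (hc2 e).2.1, (hc2 e).2.2, ?_⟩
      have h := hC1 t ht1 (x e) (hx e).1 (hx e).2
      have e1 : (Real.log 2 - wf (1 / √(t : ℝ)) (x e)) / √(√(t : ℝ)) =
          1 / √(√(t : ℝ)) * (Real.log 2 - w e) := by
        rw [hw]; ring
      rw [e1] at h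
      exact h)
  set B : ℝ := ∑ e ∈ Ed (univ : Finset (Fin n)), w e with hB
  set s : ℝ := B - (t.choose 2 : ℝ) * Real.log 2 with hs
  have hden : 0 < ((t : ℝ) - 1) * Real.log 2 := mul_pos (by linarith) hlog
  set σ : ℝ := max 0 (2 * s / (((t : ℝ) - 1) * Real.log 2)) with hσ
  have hσ0 : 0 ≤ σ := le_max_left _ _
  have hch : (t.choose 2 : ℝ) = (t : ℝ) * ((t : ℝ) - 1) / 2 := Nat.cast_choose_two ℝ t
  have hav : ∀ v, 0 ≤ av t w v := by
    intro v
    unfold av
    exact div_nonneg (Finset.sum_nonneg fun e _ => (hc2 e).2.1) hden.le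
  have hsum : ∑ v : Fin n, av t w v ≤ t + σ := by
    rw [hDeg n t w (by omega), ← hB]
    have e1 : 2 * B / (((t : ℝ) - 1) * Real.log 2) =
        t + 2 * s / (((t : ℝ) - 1) * Real.log 2) := by
      rw [hs, hch]
      have : (t : ℝ) - 1 ≠ 0 := by linarith
      have := hlog.ne'
      field_simp
      ring
    rw [e1]
    linarith [le_max_right 0 (2 * s / (((t : ℝ) - 1) * Real.log 2))]
  have hS := hSym n t g (fun v => av t w v) ((((t : ℝ) - 1) * (1 / √(√(t : ℝ))) * Real.log 2 / 2))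
    σ (Real.exp (((t : ℝ) - 1) * (1 / (t : ℝ) ^ 3) / 2)) (by omega)
    (by
      have : 0 ≤ (t : ℝ) - 1 := by linarith
      positivity) hσ0
    (Real.one_le_exp (by
      have : 0 ≤ (t : ℝ) - 1 := by linarith
      positivity))
    (fun v => ⟨(hg v).1, (hg v).2.1, hav v, (hg v).2.2.1, (hg v).2.2.2⟩) hsum
  have hN' := hN t ht2 σ hσ0
  have hZ : ∑ U ∈ (univ : Finset (Fin n)).powersetCard t, ∏ e ∈ Ed U, uf (x e) ≤
      ∑ U ∈ (univ : Finset (Fin n)).powersetCard t, ∏ v ∈ U, (g v) ^ 2 :=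
    Finset.sum_le_sum fun U hU => hgU U (Finset.mem_powersetCard.1 hU).2
  have hprod : ∏ e ∈ Ed (univ : Finset (Fin n)), (1 / Mf (1 / √(t : ℝ)) (x e)) =
      Real.exp ((1 / √(t : ℝ)) * B) := by
    rw [hB, Finset.mul_sum, Real.exp_sum]
    refine Finset.prod_congr rfl fun e _ => ?_
    have e1 : (1 / √(t : ℝ)) * w e = Real.log (1 / Mf (1 / √(t : ℝ)) (x e)) := by
      simp only [hw, wf]
      field_simp
    rw [e1, Real.exp_log (one_div_pos.2 (hc2 e).1)]
  have hlast : (if σ = 0 then 0 else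
        ε * Real.exp ((1 / √(t : ℝ)) * (σ * (((t : ℝ) - 1) * Real.log 2) / 2))) ≤
      ε * ((2 : ℝ) ^ (-((1 / √(t : ℝ)) * (t.choose 2 : ℝ))) *
        ∏ e ∈ Ed (univ : Finset (Fin n)), (1 / Mf (1 / √(t : ℝ)) (x e))) := by
    rw [hprod]
    split_ifs with h0
    · positivity
    · apply le_of_eq
      have hσs : σ = 2 * s / (((t : ℝ) - 1) * Real.log 2) := by
        rcases max_choice 0 (2 * s / (((t : ℝ) - 1) * Real.log 2)) with h1 | h1
        · exact absurd h1 h0
        · exact h1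
      have e1 : (1 / √(t : ℝ)) * (σ * (((t : ℝ) - 1) * Real.log 2) / 2) =
          Real.log 2 * (-((1 / √(t : ℝ)) * (t.choose 2 : ℝ))) + (1 / √(t : ℝ)) * B := by
        rw [hσs, div_mul_cancel₀ _ hden.ne', hs]
        ring
      rw [e1, Real.exp_add, Real.rpow_def_of_pos (by norm_num)]
  linarith

end Pool.Agent.E8helper89.SI
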